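import Mathlib
import Pool.Agent.Helper97.NR.Defs

/-! MP_b63a31_co, Q2, part C1: counting lemma. -/

set_option autoImplicit false

namespace Pool.Agent.Helper76.NR

/-- C1: counting lemma. -/
theorem count_two {α β Ω : Type*} [Fintype α] [Fintype β] [DecidableEq Ω] {n M : ℕ} (hn : 0 < n)
    (hα : Fintype.card α = n) (hβ : Fintype.card β = n)
    (S1 : α → Finset Ω) (S2 : α → β → Finset Ω)
    (h1 : ∀ a, M ≤ (S1 a).card) (h2 : ∀ a b, M ≤ (S2 a b).card)
    (hno : ∀ x a1 a2 a3 b1 b2, a1 ≠ a2 → b1 ≠ b2 → a2 ≠ a3 →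
      x ∈ S2 a1 b1 → x ∈ S2 a2 b1 → x ∈ S2 a2 b2 → x ∈ S2 a3 b2 → False) :
    ∃ T : Finset (Ω × Ω), (∀ p ∈ T, ∃ a b, p.1 ∈ S1 a ∧ p.2 ∈ S2 a b) ∧
      n * M ^ 2 ≤ 2 * T.card := by
  classical
  set T : Finset (Ω × Ω) :=
    (Finset.univ : Finset (α × β)).biUnion (fun ab => S1 ab.1 ×ˢ S2 ab.1 ab.2) with hT
  refine ⟨T, ?_, ?_⟩
  · intro p hp
    rw [hT, Finset.mem_biUnion] at hp
    obtain ⟨ab, -, hp⟩ := hp
    rw [Finset.mem_product] at hp
    exact ⟨ab.1, ab.2, hp.1, hp.2⟩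
  · -- every word is on at most `2 n` links
    have hE : ∀ x, ((Finset.univ : Finset (α × β)).filter (fun ab => x ∈ S2 ab.1 ab.2)).card
        ≤ 2 * n := by
      intro x
      set E := (Finset.univ : Finset (α × β)).filter (fun ab => x ∈ S2 ab.1 ab.2) with hEdef
      have hsplit := Finset.card_filter_add_card_filter_not (s := E)
        (fun ab => ∃ a', a' ≠ ab.1 ∧ x ∈ S2 a' ab.2)
      have hA : (E.filter (fun ab => ∃ a', a' ≠ ab.1 ∧ x ∈ S2 a' ab.2)).card ≤ n := by
        rw [← hα, ← Finset.card_univ]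
        refine Finset.card_le_card_of_injOn Prod.fst (fun _ _ => Finset.mem_coe.mpr (Finset.mem_univ _)) ?_
        rintro ⟨a, b⟩ hab ⟨a', b'⟩ hab' (h : a = a')
        subst h
        rw [Finset.mem_coe, Finset.mem_filter, hEdef, Finset.mem_filter] at hab hab'
        obtain ⟨⟨-, hx⟩, c, hc, hxc⟩ := hab
        obtain ⟨⟨-, hx'⟩, c', hc', hxc'⟩ := hab'
        by_contra hne
        have hbb : b ≠ b' := fun h => hne (by rw [h])
        exact hno x c a c' b b' hc hbb (Ne.symm hc') hxc hx hx' hxc'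
      have hB : (E.filter (fun ab => ¬ ∃ a', a' ≠ ab.1 ∧ x ∈ S2 a' ab.2)).card ≤ n := by
        rw [← hβ, ← Finset.card_univ]
        refine Finset.card_le_card_of_injOn Prod.snd (fun _ _ => Finset.mem_coe.mpr (Finset.mem_univ _)) ?_
        rintro ⟨a, b⟩ hab ⟨a', b'⟩ hab' (h : b = b')
        subst h
        rw [Finset.mem_coe, Finset.mem_filter, hEdef, Finset.mem_filter] at hab hab'
        obtain ⟨⟨-, hx⟩, hc⟩ := hab
        obtain ⟨⟨-, hx'⟩, -⟩ := hab'
        by_contra hne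
        exact hc ⟨a', fun h => hne (by rw [h]), hx'⟩
      omega
    have hdc := Finset.sum_card_bipartiteAbove_eq_sum_card_bipartiteBelow
      (s := (Finset.univ : Finset (α × β))) (t := T)
      (fun (ab : α × β) (p : Ω × Ω) => p ∈ S1 ab.1 ×ˢ S2 ab.1 ab.2)
    have hL : n ^ 2 * M ^ 2 ≤ ∑ ab ∈ (Finset.univ : Finset (α × β)),
        (T.bipartiteAbove (fun (ab : α × β) (p : Ω × Ω) => p ∈ S1 ab.1 ×ˢ S2 ab.1 ab.2) ab).card := by
      have hc : ∀ ab ∈ (Finset.univ : Finset (α × β)), M ^ 2 ≤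
          (T.bipartiteAbove (fun (ab : α × β) (p : Ω × Ω) => p ∈ S1 ab.1 ×ˢ S2 ab.1 ab.2) ab).card := by
        intro ab _
        have heq : T.bipartiteAbove
            (fun (ab : α × β) (p : Ω × Ω) => p ∈ S1 ab.1 ×ˢ S2 ab.1 ab.2) ab
            = S1 ab.1 ×ˢ S2 ab.1 ab.2 := by
          ext p
          rw [Finset.mem_bipartiteAbove]
          constructor
          · exact fun h => h.2
          · intro h
            exact ⟨Finset.mem_biUnion.mpr ⟨ab, Finset.mem_univ _, h⟩, h⟩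
        rw [heq, Finset.card_product, pow_two]
        exact Nat.mul_le_mul (h1 _) (h2 _ _)
      calc n ^ 2 * M ^ 2 = ∑ _ab ∈ (Finset.univ : Finset (α × β)), M ^ 2 := by
            rw [Finset.sum_const, Finset.card_univ, Fintype.card_prod, hα, hβ, smul_eq_mul]
            ring
        _ ≤ _ := Finset.sum_le_sum hc
    have hR : ∑ p ∈ T, ((Finset.univ : Finset (α × β)).bipartiteBelow
        (fun (ab : α × β) (p : Ω × Ω) => p ∈ S1 ab.1 ×ˢ S2 ab.1 ab.2) p).card ≤ T.card * (2 * n) := by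
      rw [← smul_eq_mul, ← Finset.sum_const]
      refine Finset.sum_le_sum fun p _ => ?_
      refine le_trans (Finset.card_le_card ?_) (hE p.2)
      intro ab hab
      rw [Finset.mem_bipartiteBelow, Finset.mem_product] at hab
      rw [Finset.mem_filter]
      exact ⟨Finset.mem_univ _, hab.2.2⟩
    rw [hdc] at hL
    have h3 := hL.trans hR
    have h4 : n * (n * M ^ 2) ≤ n * (2 * T.card) := by nlinarith
    exact Nat.le_of_mul_le_mul_left h4 hn

end Pool.Agent.Helper76.NR
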